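import Mathlib

set_option autoImplicit false

namespace Pool.Agent.Results.MP_f07b17_co.LowerBound

open Finset

/-- `G` is a 3-graph on the vertex set `V`: a family of 3-element subsets of `V`. -/
def IsThreeGraph {V : Type} (G : Finset (Finset V)) : Prop := ∀ e ∈ G, e.card = 3

/-- `G` has no subgraph isomorphic to the Fano plane: there is no injection `f` from the nonzero
vectors of `𝔽₂³` to `V` such that `{f x, f y, f (x + y)}` is an edge for all `x ≠ y`. -/
def FanoFree {V : Type} [DecidableEq V] (G : Finset (Finset V)) : Prop :=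
  ¬ ∃ f : (Fin 3 → ZMod 2) → V, Set.InjOn f {x | x ≠ 0} ∧
      ∀ x y, x ≠ 0 → y ≠ 0 → x ≠ y → ({f x, f y, f (x + y)} : Finset V) ∈ G

/-- `G` is bipartite: the vertex set splits into `A` and its complement, and every edge has a
vertex in each part. -/
def Bipartite {V : Type} (G : Finset (Finset V)) : Prop :=
  ∃ A : Set V, ∀ e ∈ G, (∃ x ∈ e, x ∈ A) ∧ (∃ y ∈ e, y ∉ A)

/-- The number of edges containing `v`. -/
def degree {V : Type} [DecidableEq V] (G : Finset (Finset V)) (v : V) : ℕ :=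
  (G.filter (fun e => v ∈ e)).card

/-- `P c`: for some `n₀`, every Fano-free 3-graph on `n ≥ n₀` vertices all of whose degrees are
larger than `c * C(n,2)` is bipartite. -/
def P (c : ℝ) : Prop :=
  ∃ n₀ : ℕ, ∀ (V : Type) [Fintype V] [DecidableEq V] (G : Finset (Finset V)),
    n₀ ≤ Fintype.card V → IsThreeGraph G → FanoFree G →
    (∀ v, c * ((Fintype.card V).choose 2 : ℝ) < (degree G v : ℝ)) → Bipartite G

/-- The threshold `c* = inf {c ∈ [0,1] : P c}`. -/
noncomputable def cStar : ℝ := sInf {c : ℝ | 0 ≤ c ∧ c ≤ 1 ∧ P c}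

/-- the allowed types of edges (a symmetric ternary relation on seven classes) as a bit mask -/
def mask : ℕ := 17772015493007798152780192182094232671245904040525194454837039350622657124550209469382969666696109966

def tab (i j k : Fin 7) : Bool := mask.testBit (49 * i.val + 7 * j.val + k.val)

lemma tab_comm1 : ∀ i j k : Fin 7, tab i j k = tab j i k := by decide +kernel

lemma tab_comm2 : ∀ i j k : Fin 7, tab i j k = tab i k j := by decide +kernel

/-- there is no homomorphism from the Fano plane to the pattern -/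
lemma no_fano : ∀ c0 c1 c2 : Fin 7, tab c0 c1 c2 = true → ∀ c3 c4 : Fin 7, tab c0 c3 c4 = true →
    ∀ c5 : Fin 7, tab c1 c3 c5 = true → tab c2 c4 c5 = true → ∀ c6 : Fin 7,
      tab c0 c5 c6 = true → tab c1 c4 c6 = true → tab c2 c3 c6 = true → False := by
  decide +kernel

/-- the 3-graph with classes of sizes `s i` -/
def G (s : Fin 7 → ℕ) : Finset (Finset (Σ i : Fin 7, Fin (s i))) :=
  univ.filter (fun e => e.card = 3 ∧ ∀ u ∈ e, ∀ v ∈ e, ∀ w ∈ e, u ≠ v → u ≠ w → v ≠ w →
    tab u.1 v.1 w.1 = true)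

lemma mem_G {s : Fin 7 → ℕ} {u v w : Σ i : Fin 7, Fin (s i)} (h1 : u ≠ v) (h2 : u ≠ w)
    (h3 : v ≠ w) : ({u, v, w} : Finset (Σ i : Fin 7, Fin (s i))) ∈ G s ↔
      tab u.1 v.1 w.1 = true := by
  constructor
  · intro h
    exact (mem_filter.mp h).2.2 u (by simp) v (by simp) w (by simp) h1 h2 h3
  · intro h
    have a1 : tab u.1 w.1 v.1 = true := by rw [tab_comm2]; exact h
    have a2 : tab v.1 u.1 w.1 = true := by rw [tab_comm1]; exact h
    have a3 : tab v.1 w.1 u.1 = true := by rw [tab_comm2]; exact a2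
    have a4 : tab w.1 u.1 v.1 = true := by rw [tab_comm1]; exact a1
    have a5 : tab w.1 v.1 u.1 = true := by rw [tab_comm1]; exact a3
    refine mem_filter.mpr ⟨mem_univ _, Finset.card_eq_three.mpr ⟨u, v, w, h1, h2, h3, rfl⟩, ?_⟩
    intro x hx y hy z hz hxy hxz hyz
    simp only [mem_insert, mem_singleton] at hx hy hz
    rcases hx with rfl | rfl | rfl <;> rcases hy with rfl | rfl | rfl <;>
      rcases hz with rfl | rfl | rfl <;>
      first
      | exact absurd rfl hxy
      | exact absurd rfl hxz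
      | exact absurd rfl hyz
      | assumption

lemma three_G (s : Fin 7 → ℕ) : IsThreeGraph (G s) := fun _ he => (mem_filter.mp he).2.1

lemma fanoFree_G (s : Fin 7 → ℕ) : FanoFree (G s) := by
  rintro ⟨f, hinj, hline⟩
  have key : ∀ x y z : Fin 3 → ZMod 2, x ≠ 0 → y ≠ 0 → z ≠ 0 → x ≠ y → x ≠ z → y ≠ z →
      x + y = z → tab (f x).1 (f y).1 (f z).1 = true := by
    intro x y z hx hy hz hxy hxz hyz hs
    have h := hline x y hx hy hxy
    rw [hs] at h
    exact (mem_G (fun h' => hxy (hinj hx hy h')) (fun h' => hxz (hinj hx hz h'))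
      (fun h' => hyz (hinj hy hz h'))).mp h
  have l1 := key ![1, 0, 0] ![0, 1, 0] ![1, 1, 0] (by decide) (by decide) (by decide) (by decide)
    (by decide) (by decide) (by decide)
  have l2 := key ![1, 0, 0] ![0, 0, 1] ![1, 0, 1] (by decide) (by decide) (by decide) (by decide)
    (by decide) (by decide) (by decide)
  have l3 := key ![1, 0, 0] ![0, 1, 1] ![1, 1, 1] (by decide) (by decide) (by decide) (by decide)
    (by decide) (by decide) (by decide)
  have l4 := key ![0, 1, 0] ![0, 0, 1] ![0, 1, 1] (by decide) (by decide) (by decide) (by decide)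
    (by decide) (by decide) (by decide)
  have l5 := key ![0, 1, 0] ![1, 0, 1] ![1, 1, 1] (by decide) (by decide) (by decide) (by decide)
    (by decide) (by decide) (by decide)
  have l6 := key ![1, 1, 0] ![0, 0, 1] ![1, 1, 1] (by decide) (by decide) (by decide) (by decide)
    (by decide) (by decide) (by decide)
  have l7 := key ![1, 1, 0] ![1, 0, 1] ![0, 1, 1] (by decide) (by decide) (by decide) (by decide)
    (by decide) (by decide) (by decide)
  exact no_fano _ _ _ l1 _ _ l2 _ l4 l7 _ l3 l5 l6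

lemma bool_check : ∀ c y0 y1 z0 z1 p q r : Bool,
    ¬ (c = y0) → ¬ (c = y1) → ¬ (c = z0) → ¬ (c = z1) →
    ¬ (z0 = z1 ∧ z1 = p) → ¬ (y0 = y1 ∧ y1 = q) → ¬ (y0 = y1 ∧ y1 = r) →
    ¬ (p = q ∧ q = r) → False := by
  intro c y0 y1 z0 z1 p q r
  cases c <;> cases y0 <;> cases y1 <;> cases z0 <;> cases z1 <;> simp <;>
    intro h1 h2 h3 <;> simp [h1, h2, h3]

lemma bool_pigeon (x0 x1 x2 : Bool) : x0 = x1 ∨ x0 = x2 ∨ x1 = x2 := by
  cases x0 <;> cases x1 <;> cases x2 <;> simp

lemma not_bipartite_G (s : Fin 7 → ℕ) (h0 : 3 ≤ s 0) (h2 : 2 ≤ s 2) (h3 : 2 ≤ s 3)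
    (h4 : 1 ≤ s 4) (h5 : 1 ≤ s 5) (h6 : 1 ≤ s 6) : ¬ Bipartite (G s) := by
  classical
  rintro ⟨A, hA⟩
  let col : (Σ i : Fin 7, Fin (s i)) → Bool := fun v => decide (v ∈ A)
  have nm : ∀ u v w : (Σ i : Fin 7, Fin (s i)), u ≠ v → u ≠ w → v ≠ w →
      tab u.1 v.1 w.1 = true → ¬ (col u = col v ∧ col v = col w) := by
    intro u v w h1 h2 h3 ht ⟨hc1, hc2⟩
    obtain ⟨⟨x, hx, hxA⟩, ⟨y, hy, hyA⟩⟩ := hA _ ((mem_G h1 h2 h3).mpr ht)
    have hu : ∀ z ∈ ({u, v, w} : Finset (Σ i : Fin 7, Fin (s i))), col z = col u := by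
      intro z hz
      simp only [mem_insert, mem_singleton] at hz
      rcases hz with rfl | rfl | rfl
      · rfl
      · exact hc1.symm
      · exact (hc1.trans hc2).symm
    have e1 := hu x hx
    have e2 := hu y hy
    have e3 : col x = true := by simp [col, hxA]
    have e4 : col y = false := by simp [col, hyA]
    rw [← e2, e3, e4] at e1
    exact Bool.noConfusion e1
  let x0 : Σ i : Fin 7, Fin (s i) := ⟨0, ⟨0, by omega⟩⟩
  let x1 : Σ i : Fin 7, Fin (s i) := ⟨0, ⟨1, by omega⟩⟩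
  let x2 : Σ i : Fin 7, Fin (s i) := ⟨0, ⟨2, by omega⟩⟩
  let y0 : Σ i : Fin 7, Fin (s i) := ⟨2, ⟨0, by omega⟩⟩
  let y1 : Σ i : Fin 7, Fin (s i) := ⟨2, ⟨1, by omega⟩⟩
  let z0 : Σ i : Fin 7, Fin (s i) := ⟨3, ⟨0, by omega⟩⟩
  let z1 : Σ i : Fin 7, Fin (s i) := ⟨3, ⟨1, by omega⟩⟩
  let p : Σ i : Fin 7, Fin (s i) := ⟨4, ⟨0, by omega⟩⟩
  let q : Σ i : Fin 7, Fin (s i) := ⟨5, ⟨0, by omega⟩⟩
  let r : Σ i : Fin 7, Fin (s i) := ⟨6, ⟨0, by omega⟩⟩
  have hzp := nm z0 z1 p (by simp [z0, z1]) (by simp [z0, p]) (by simp [z1, p])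
    (show tab 3 3 4 = true by decide +kernel)
  have hyq := nm y0 y1 q (by simp [y0, y1]) (by simp [y0, q]) (by simp [y1, q])
    (show tab 2 2 5 = true by decide +kernel)
  have hyr := nm y0 y1 r (by simp [y0, y1]) (by simp [y0, r]) (by simp [y1, r])
    (show tab 2 2 6 = true by decide +kernel)
  have hpqr := nm p q r (by simp [p, q]) (by simp [p, r]) (by simp [q, r])
    (show tab 4 5 6 = true by decide +kernel)
  have fin : ∀ u v : Fin (s 0), u ≠ v →
      col ⟨0, u⟩ = col ⟨0, v⟩ → False := by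
    intro u v huv hc
    have huv' : (⟨0, u⟩ : Σ i : Fin 7, Fin (s i)) ≠ ⟨0, v⟩ := by
      intro h
      exact huv (by simpa using h)
    have g : ∀ w : Σ i : Fin 7, Fin (s i), w.1 ≠ 0 → tab 0 0 w.1 = true →
        ¬ (col ⟨0, u⟩ = col w) := by
      intro w hw0 hw h
      refine nm ⟨0, u⟩ ⟨0, v⟩ w huv' ?_ ?_ hw ⟨hc, hc ▸ h⟩
      · rintro rfl
        exact hw0 rfl
      · rintro rfl
        exact hw0 rfl
    have d2 : (2 : Fin 7) ≠ 0 := by decide
    have d3 : (3 : Fin 7) ≠ 0 := by decide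
    have t2 : tab 0 0 2 = true := by decide +kernel
    have t3 : tab 0 0 3 = true := by decide +kernel
    exact bool_check _ _ _ _ _ _ _ _ (g y0 d2 t2) (g y1 d2 t2) (g z0 d3 t3) (g z1 d3 t3)
      hzp hyq hyr hpqr
  rcases bool_pigeon (col x0) (col x1) (col x2) with h | h | h
  · exact fin _ _ (by simp) h
  · exact fin _ _ (by simp) h
  · exact fin _ _ (by simp) h

/-- lower bound for the degrees -/
lemma degree_G (s : Fin 7 → ℕ) (v : Σ i : Fin 7, Fin (s i)) :
    (∑ j, ∑ k, if tab v.1 j k = true then s j * s k else 0) ≤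
      2 * degree (G s) v + 3 * (∑ i, s i) := by
  classical
  set N := Fintype.card (Σ i : Fin 7, Fin (s i)) with hN
  have hN' : N = ∑ i, s i := by simp [hN]
  set P0 : Finset ((Σ i : Fin 7, Fin (s i)) × (Σ i : Fin 7, Fin (s i))) :=
    univ.filter (fun x => tab v.1 x.1.1 x.2.1 = true) with hP0
  set P1 := P0.filter (fun x => x.1 ≠ x.2 ∧ v ≠ x.1 ∧ v ≠ x.2) with hP1
  have c0 : P0.card = ∑ j, ∑ k, if tab v.1 j k = true then s j * s k else 0 := by
    rw [hP0, Finset.card_filter, Fintype.sum_prod_type, Fintype.sum_sigma]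
    refine Finset.sum_congr rfl fun j _ => ?_
    simp only [Fintype.sum_sigma]
    rw [Finset.sum_comm]
    refine Finset.sum_congr rfl fun k _ => ?_
    by_cases h : tab v.1 j k = true <;> simp [h]
  have c1 : P0.card ≤ P1.card + (N + N + N) := by
    have hsub : P0 ⊆ P1 ∪ ((univ.image (fun x => (x, x))) ∪ (univ.image (fun x => (v, x))) ∪
        (univ.image (fun x => (x, v)))) := by
      intro x hx
      by_cases h1 : x.1 = x.2
      · refine mem_union_right _ (mem_union_left _ (mem_union_left _ ?_))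
        exact mem_image.mpr ⟨x.1, mem_univ _, by rw [Prod.ext_iff]; exact ⟨rfl, h1⟩⟩
      · by_cases h2 : v = x.1
        · refine mem_union_right _ (mem_union_left _ (mem_union_right _ ?_))
          exact mem_image.mpr ⟨x.2, mem_univ _, by rw [Prod.ext_iff]; exact ⟨h2, rfl⟩⟩
        · by_cases h3 : v = x.2
          · refine mem_union_right _ (mem_union_right _ ?_)
            exact mem_image.mpr ⟨x.1, mem_univ _, by rw [Prod.ext_iff]; exact ⟨rfl, h3⟩⟩
          · exact mem_union_left _ (mem_filter.mpr ⟨hx, h1, h2, h3⟩)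
    refine (card_le_card hsub).trans ((card_union_le _ _).trans ?_)
    refine Nat.add_le_add_left ?_ _
    refine (card_union_le _ _).trans (Nat.add_le_add ((card_union_le _ _).trans
      (Nat.add_le_add ?_ ?_)) ?_)
    · exact card_image_le.trans (by rw [card_univ])
    · exact card_image_le.trans (by rw [card_univ])
    · exact card_image_le.trans (by rw [card_univ])
  have c2 : P1.card ≤ 2 * degree (G s) v := by
    have h1 : P1.card ≤ 2 * (P1.image (fun x => ({v, x.1, x.2} :
        Finset (Σ i : Fin 7, Fin (s i))))).card := by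
      refine Finset.card_le_mul_card_image _ _ ?_
      intro e he
      obtain ⟨x, hx, hxe⟩ := mem_image.mp he
      have hx' := (mem_filter.mp hx).2
      have hcard : (e.erase v).card = 2 := by
        have hve : v ∈ e := by rw [← hxe]; simp
        have he3 : e.card = 3 := Finset.card_eq_three.mpr
          ⟨v, x.1, x.2, hx'.2.1, hx'.2.2, hx'.1, hxe.symm⟩
        rw [card_erase_of_mem hve, he3]
      have hsub : (P1.filter (fun y => ({v, y.1, y.2} :
          Finset (Σ i : Fin 7, Fin (s i))) = e)) ⊆ (e.erase v).offDiag := by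
        intro y hy
        have hy1 := (mem_filter.mp (mem_filter.mp hy).1).2
        have hy2 := (mem_filter.mp hy).2
        rw [mem_offDiag]
        refine ⟨mem_erase.mpr ⟨hy1.2.1.symm, ?_⟩, mem_erase.mpr ⟨hy1.2.2.symm, ?_⟩, hy1.1⟩
        · rw [← hy2]; simp
        · rw [← hy2]; simp
      refine (card_le_card hsub).trans ?_
      rw [offDiag_card, hcard]
    refine h1.trans (Nat.mul_le_mul_left _ ?_)
    refine card_le_card ?_
    intro e he
    obtain ⟨x, hx, hxe⟩ := mem_image.mp he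
    have hx' := (mem_filter.mp hx).2
    have hx0 := (mem_filter.mp (mem_filter.mp hx).1).2
    refine mem_filter.mpr ⟨?_, ?_⟩
    · rw [← hxe]
      exact (mem_G hx'.2.1 hx'.2.2 hx'.1).mpr hx0
    · rw [← hxe]; simp
  rw [← c0, ← hN']
  omega

/-- the class sizes -/
def sz (t : ℕ) : Fin 7 → ℕ := ![458 * t, 15 * t, 437 * t, 181 * t, 1, 1, 1]

lemma sum_sz (t : ℕ) : ∑ i, sz t i = 1091 * t + 3 := by
  simp [Fin.sum_univ_succ, sz]
  ring

lemma types_sz (t : ℕ) (i : Fin 7) :
    789548 * t ^ 2 ≤ ∑ j, ∑ k, if tab i j k = true then sz t j * sz t k else 0 := by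
  have key : ∀ i : Fin 7, 789548 ≤ ∑ j : Fin 7, ∑ k : Fin 7, if tab i j k = true then
      (![458, 15, 437, 181, 0, 0, 0] : Fin 7 → ℕ) j *
        (![458, 15, 437, 181, 0, 0, 0] : Fin 7 → ℕ) k else 0 := by decide +kernel
  have hle : ∀ j : Fin 7, (![458, 15, 437, 181, 0, 0, 0] : Fin 7 → ℕ) j * t ≤ sz t j := by
    intro j
    fin_cases j <;> simp [sz]
  calc 789548 * t ^ 2 ≤ (∑ j : Fin 7, ∑ k : Fin 7, if tab i j k = true then
      (![458, 15, 437, 181, 0, 0, 0] : Fin 7 → ℕ) j *
        (![458, 15, 437, 181, 0, 0, 0] : Fin 7 → ℕ) k else 0) * t ^ 2 :=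
        Nat.mul_le_mul_right _ (key i)
    _ = ∑ j : Fin 7, ∑ k : Fin 7, if tab i j k = true then
      ((![458, 15, 437, 181, 0, 0, 0] : Fin 7 → ℕ) j * t) *
        ((![458, 15, 437, 181, 0, 0, 0] : Fin 7 → ℕ) k * t) else 0 := by
        rw [Finset.sum_mul]
        refine Finset.sum_congr rfl fun j _ => ?_
        rw [Finset.sum_mul]
        refine Finset.sum_congr rfl fun k _ => ?_
        split_ifs
        · ring
        · simp
    _ ≤ _ := by
        refine Finset.sum_le_sum fun j _ => Finset.sum_le_sum fun k _ => ?_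
        split_ifs
        · exact Nat.mul_le_mul (hle j) (hle k)
        · exact le_rfl

lemma arith {c t d : ℝ} (hc : c ≤ 6633 / 10000) (ht : 300 ≤ t)
    (h : 789548 * t ^ 2 ≤ 2 * d + 3 * (1091 * t + 3)) :
    c * ((1091 * t + 3) * (1091 * t + 2) / 2) < d := by
  have h5 : c * ((1091 * t + 3) * (1091 * t + 2) / 2) ≤
      6633 / 10000 * ((1091 * t + 3) * (1091 * t + 2) / 2) := by
    refine mul_le_mul_of_nonneg_right hc ?_
    have : 0 ≤ (1091 * t + 3) * (1091 * t + 2) :=
      mul_nonneg (by linarith) (by linarith)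
    linarith
  nlinarith

/-- For every `c ≤ 0.6633` the property `P c` fails. -/
theorem not_P {c : ℝ} (hc : c ≤ 6633 / 10000) : ¬ P c := by
  rintro ⟨n₀, h⟩
  obtain ⟨t, ht⟩ : ∃ t, t = n₀ + 300 := ⟨_, rfl⟩
  have hcard : Fintype.card (Σ i : Fin 7, Fin (sz t i)) = 1091 * t + 3 := by
    rw [← sum_sz t]; simp
  refine not_bipartite_G (sz t) ?_ ?_ ?_ ?_ ?_ ?_
    (h (Σ i : Fin 7, Fin (sz t i)) (G (sz t)) (by rw [hcard]; omega) (three_G _) (fanoFree_G _) ?_)
  · simp [sz]; omega
  · simp [sz]; omega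
  · simp [sz]; omega
  · simp [sz]
  · simp [sz]
  · simp [sz]
  · intro v
    have h1 := degree_G (sz t) v
    have h2 := types_sz t v.1
    rw [sum_sz] at h1
    have h3 : 789548 * t ^ 2 ≤ 2 * degree (G (sz t)) v + 3 * (1091 * t + 3) := h2.trans h1
    have h3' : (789548 : ℝ) * (t : ℝ) ^ 2 ≤ 2 * (degree (G (sz t)) v : ℝ) +
        3 * (1091 * (t : ℝ) + 3) := by exact_mod_cast h3
    rw [hcard]
    have h4 : (((1091 * t + 3).choose 2 : ℕ) : ℝ) =
        (1091 * (t : ℝ) + 3) * (1091 * (t : ℝ) + 2) / 2 := by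
      rw [Nat.cast_choose_two]
      push_cast
      ring
    rw [h4]
    have ht' : (300 : ℝ) ≤ (t : ℝ) := by
      rw [ht]; push_cast
      have : (0 : ℝ) ≤ (n₀ : ℝ) := Nat.cast_nonneg _
      linarith
    exact arith hc ht' h3'

theorem P_one : P 1 := by
  refine ⟨1, ?_⟩
  intro V _ _ G hV hG _ hdeg
  exfalso
  obtain ⟨v⟩ : Nonempty V := Fintype.card_pos_iff.mp hV
  have h1 := hdeg v
  have h2 : degree G v ≤ (Fintype.card V).choose 2 := by
    have h3 : degree G v ≤ ((univ : Finset V).powersetCard 2).card := by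
      refine Finset.card_le_card_of_injOn (fun e => e.erase v) ?_ ?_
      · intro e he
        have he' := mem_filter.mp (Finset.mem_coe.mp he)
        refine Finset.mem_coe.mpr (mem_powersetCard.mpr ⟨subset_univ _, ?_⟩)
        rw [card_erase_of_mem he'.2, hG e he'.1]
      · intro e he e' he' hee
        have h5 := (mem_filter.mp (Finset.mem_coe.mp he)).2
        have h6 := (mem_filter.mp (Finset.mem_coe.mp he')).2
        have hee' : e.erase v = e'.erase v := hee
        rw [← insert_erase h5, ← insert_erase h6, hee']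
    rwa [card_powersetCard, card_univ] at h3
  have h4 : (degree G v : ℝ) ≤ ((Fintype.card V).choose 2 : ℝ) := by exact_mod_cast h2
  linarith

/-- The threshold `c*` is at least `0.6633`: for every `c ≤ 0.6633` there are arbitrarily large
Fano-free 3-graphs with minimum degree larger than `c * C(n,2)` that are not bipartite. -/
theorem result : (∀ c : ℝ, c ≤ 6633 / 10000 → ¬ P c) ∧ 6633 / 10000 ≤ cStar := by
  refine ⟨fun c hc => not_P hc, ?_⟩
  refine le_csInf ⟨1, by norm_num, le_rfl, P_one⟩ ?_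
  rintro c ⟨_, _, hc⟩
  by_contra h
  exact not_P (not_le.mp h).le hc

end Pool.Agent.Results.MP_f07b17_co.LowerBound
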